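import Pool.Agent.W93.GB1
import Pool.Agent.R459.Nbhd

set_option autoImplicit false

/-! From the windows to a Goldbach partition with the smaller prime above the square root. -/

namespace Pool.Agent.U108.GK
open Finset
open Pool.Agent.H560R3.GB (sing)

/-- The number of primes `p`, `y₁ < p ≤ y₂`, for which `m - p` is a prime. -/
def R (m y₁ y₂ : ℕ) : ℕ := ((Ioc y₁ y₂).filter (fun p => p.Prime ∧ (m - p).Prime)).card

lemma main (ε : ℝ) (hε0 : 0 < ε) (hε : ε < 1) (A m : ℕ) (hm : 3000 ≤ m) (h : Pool.Agent.W93.PG.WinP ε (A + 1) m) :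
    (∃ p : ℕ, p.Prime ∧ Real.sqrt m < p ∧ 2 * p < m ∧ (m - p).Prime) ∧
    ∀ y₁ y₂ : ℕ, y₁ < y₂ → y₂ ≤ m → (m : ℝ) / Real.log m ^ A ≤ (y₂ : ℝ) - y₁ →
      |(R m y₁ y₂ : ℝ) - sing m * ((y₂ : ℝ) - y₁) / Real.log m ^ 2| ≤ ε * (sing m * ((y₂ : ℝ) - y₁) / Real.log m ^ 2) := by
  have hmr : (3000 : ℝ) ≤ m := by exact_mod_cast hm
  have hm0 : (0 : ℝ) < m := by linarith
  have hl8 : (7 : ℝ) ≤ Real.log m := by
    rw [Real.le_log_iff_exp_le hm0]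
    have h1 : Real.exp 7 = Real.exp 1 ^ 7 := by rw [← Real.exp_nat_mul]; norm_num
    have h2 := Real.exp_one_lt_d9
    have h3 : Real.exp 1 ^ 7 ≤ 2.7182818286 ^ 7 := pow_le_pow_left₀ (Real.exp_pos 1).le h2.le 7
    have h4 : (2.7182818286 : ℝ) ^ 7 ≤ 3000 := by norm_num
    linarith
  have hmono : ∀ a b : ℕ, a ≤ b → (m : ℝ) / Real.log m ^ b ≤ (m : ℝ) / Real.log m ^ a := by
    intro a b hab
    exact div_le_div_of_nonneg_left hm0.le (by positivity) (pow_le_pow_right₀ (by linarith) hab)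
  refine ⟨?_, fun y₁ y₂ h12 hy hlen => h y₁ y₂ h12 hy ((hmono A (A + 1) (by omega)).trans hlen)⟩
  obtain ⟨y₁, hy₁⟩ : ∃ y : ℕ, y = m / 4 := ⟨_, rfl⟩
  obtain ⟨y₂, hy₂⟩ : ∃ y : ℕ, y = (m - 1) / 2 := ⟨_, rfl⟩
  have h12 : y₁ < y₂ := by omega
  have hd : (m : ℝ) / 4 - 2 ≤ (y₂ : ℝ) - y₁ := by
    have h1 : m ≤ 4 * y₂ - 4 * y₁ + 8 := by omega
    have h2 : (m : ℝ) ≤ 4 * y₂ - 4 * y₁ + 8 := by
      have h3 : m + 4 * y₁ ≤ 4 * y₂ + 8 := by omega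
      have h4 : (m : ℝ) + 4 * y₁ ≤ 4 * y₂ + 8 := by exact_mod_cast h3
      linarith
    linarith
  have hlen : (m : ℝ) / Real.log m ^ (A + 1) ≤ (y₂ : ℝ) - y₁ := by
    have h1 := hmono 1 (A + 1) (by omega)
    rw [pow_one] at h1
    have h2 : (m : ℝ) / Real.log m ≤ m / 7 := div_le_div_of_nonneg_left hm0.le (by norm_num) hl8
    linarith
  have h1 := h y₁ y₂ h12 (by omega) hlen
  have e0 : Pool.Agent.W93.PG.cnt m y₁ y₂ = R m y₁ y₂ := rfl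
  rw [e0] at h1
  have hs := Pool.Agent.W93.GB.one_le_sing m
  have hpos : 0 < sing m * ((y₂ : ℝ) - y₁) / Real.log m ^ 2 := by
    apply div_pos _ (by positivity)
    apply mul_pos (by linarith)
    linarith
  have h2 : 0 < (R m y₁ y₂ : ℝ) := by
    have := (abs_le.1 h1).1
    nlinarith
  have h3 : 0 < R m y₁ y₂ := by exact_mod_cast h2
  unfold R at h3
  obtain ⟨p, hp⟩ := card_pos.1 h3
  rw [mem_filter, mem_Ioc] at hp
  refine ⟨p, hp.2.1, ?_, by omega, hp.2.2⟩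
  rw [Real.sqrt_lt' (by exact_mod_cast hp.2.1.pos)]
  have h5 : m < 4 * p := by omega
  have h6 : (m : ℝ) < 4 * p := by exact_mod_cast h5
  nlinarith

end Pool.Agent.U108.GK
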